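import Pool.Agent.K3h46.HP.Stm5

set_option autoImplicit false

open Finset

namespace Pool.Agent.K3h13.HP

open Pool.Agent.K3h46.HP

theorem rows_zero (X : Powers) (a : X.A 2) (K M : ℕ) (h : X.symPower a M = 0)
    (E : Fin K → Fin K → X.A (K + K)) (s : Fin M ↪ Fin K)
    (hE : ∀ i j, E (s i) j = X.edge a (Fin.castAdd K (s i)) (Fin.natAdd K j)) :
    ∑ σ : Equiv.Perm (Fin K), ∏ i, E i (σ i) = 0 := by
  obtain ⟨S, hS⟩ : ∃ S, S = ∑ σ : Equiv.Perm (Fin K), ∏ i, E i (σ i) := ⟨_, rfl⟩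
  rw [← hS]
  have h1 : ∀ τ : Equiv.Perm (Fin M),
      S = ∑ σ : Equiv.Perm (Fin K), ∏ i, E i (σ (τ.viaFintypeEmbedding s i)) := by
    intro τ
    rw [hS, ← Equiv.sum_comp (Equiv.mulRight (τ.viaFintypeEmbedding s))]
    rfl
  have h2 : ∀ σ : Equiv.Perm (Fin K),
      ∑ τ : Equiv.Perm (Fin M), ∏ i, E i (σ (τ.viaFintypeEmbedding s i)) = 0 := by
    intro σ
    obtain ⟨g, hg⟩ : ∃ g : Fin (M + M) → Fin (K + K),
        g = Fin.addCases (fun j => Fin.castAdd K (s j)) (fun j => Fin.natAdd K (σ (s j))) :=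
      ⟨_, rfl⟩
    have h3 : ∀ τ : Equiv.Perm (Fin M), ∏ i, E i (σ (τ.viaFintypeEmbedding s i)) =
        (∏ i ∈ (univ.map s)ᶜ, E i (σ i)) *
          X.pull g (∏ i : Fin M, X.edge a (Fin.castAdd M i) (Fin.natAdd M (τ i))) := by
      intro τ
      rw [← Finset.prod_compl_mul_prod (univ.map s)]
      congr 1
      · refine prod_congr rfl fun i hi => ?_
        rw [Equiv.Perm.viaFintypeEmbedding_apply_notMem_range]
        simpa using hi
      · rw [prod_map, map_prod]
        refine prod_congr rfl fun j _ => ?_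
        rw [Equiv.Perm.viaFintypeEmbedding_apply_image, hE, pull_edge, hg]
        simp only [Fin.addCases_left, Fin.addCases_right]
    rw [sum_congr rfl fun τ _ => h3 τ, ← mul_sum, ← map_sum]
    have h4 : ∑ τ : Equiv.Perm (Fin M), ∏ i : Fin M,
        X.edge a (Fin.castAdd M i) (Fin.natAdd M (τ i)) = X.symPower a M := rfl
    rw [h4, h, map_zero, mul_zero]
  have h5 : ∑ _τ : Equiv.Perm (Fin M), S = 0 := by
    rw [sum_congr rfl fun τ _ => h1 τ, sum_comm]
    exact sum_eq_zero fun σ _ => h2 σ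
  rw [sum_const, card_univ, Fintype.card_perm, Fintype.card_fin] at h5
  have h6 : ((M.factorial : ℕ) : ℚ) • S = 0 := by
    rw [Nat.cast_smul_eq_nsmul]
    exact h5
  exact (smul_eq_zero.mp h6).resolve_left (Nat.cast_ne_zero.mpr M.factorial_ne_zero)

theorem exists_emb {K : ℕ} (t : Finset (Fin K)) (M : ℕ) (h : M ≤ t.card) :
    ∃ s : Fin M ↪ Fin K, ∀ i, s i ∈ t := by
  obtain ⟨t', ht', hc⟩ := Finset.exists_subset_card_eq h
  exact ⟨(t'.orderEmbOfFin hc).toEmbedding, fun i => ht' (Finset.orderEmbOfFin_mem t' hc i)⟩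

theorem edge_add (X : Powers) (a b : X.A 2) {n : ℕ} (i j : Fin n) :
    X.edge (a + b) i j = X.edge a i j + X.edge b i j := by
  unfold Powers.edge
  rw [map_add]

theorem t_AddSym : StmAddSym := by
  intro X a b M N ha hb
  unfold Powers.symPower
  simp only [edge_add]
  rw [sum_congr rfl fun σ _ => Finset.prod_add _ _ _, sum_comm]
  refine sum_eq_zero fun t _ => ?_
  obtain ⟨E, hE⟩ : ∃ E : Fin (M + N) → Fin (M + N) → X.A (M + N + (M + N)),
      E = fun i j => if i ∈ t then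
        X.edge a (Fin.castAdd (M + N) i) (Fin.natAdd (M + N) j) else
        X.edge b (Fin.castAdd (M + N) i) (Fin.natAdd (M + N) j) := ⟨_, rfl⟩
  have h1 : ∀ σ : Equiv.Perm (Fin (M + N)),
      (∏ i ∈ t, X.edge a (Fin.castAdd (M + N) i) (Fin.natAdd (M + N) (σ i))) *
        ∏ i ∈ univ \ t, X.edge b (Fin.castAdd (M + N) i) (Fin.natAdd (M + N) (σ i)) =
      ∏ i, E i (σ i) := by
    intro σ
    have h2 := Finset.prod_piecewise univ t
      (fun i => X.edge a (Fin.castAdd (M + N) i) (Fin.natAdd (M + N) (σ i)))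
      (fun i => X.edge b (Fin.castAdd (M + N) i) (Fin.natAdd (M + N) (σ i)))
    rw [univ_inter] at h2
    rw [← h2, hE]
    rfl
  rw [sum_congr rfl fun σ _ => h1 σ]
  by_cases hM : M ≤ t.card
  · obtain ⟨s, hs⟩ := exists_emb t M hM
    refine rows_zero X a (M + N) M ha E s fun i j => ?_
    simp only [hE]
    rw [if_pos (hs i)]
  · have hc : (univ \ t).card = M + N - t.card := by
      rw [card_sdiff_of_subset (subset_univ t), card_univ, Fintype.card_fin]
    obtain ⟨s, hs⟩ := exists_emb (univ \ t) N (by omega)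
    refine rows_zero X b (M + N) N hb E s fun i j => ?_
    simp only [hE]
    rw [if_neg]
    have h3 := hs i
    rw [mem_sdiff] at h3
    exact h3.2

end Pool.Agent.K3h13.HP
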